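import Mathlib
import Pool.Agent.Q268.DL.Interp2
import Pool.Agent.Q268.DL.DuUnif
import Pool.Agent.Q268.DL.ExT
import Pool.Agent.Q268.DP.Exist

/-!
# Uniform asymptotics in short intervals for randomly displaced primes

Every prime `q` is moved to `q + X q`, the displacements `X q` being independent and uniform on
`{0, …, D q}`.  For regular `D` with `D q ≥ c log³ q` the asymptotic formula for the displaced primes,
uniformly in all windows which are long compared with `log² x`, is almost surely equivalent to the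
asymptotic formula for the primes themselves in the windows `(n, n + D n]`.  If `D` grows faster than all
powers of the logarithm, the same holds for the question Q1 for the displaced primes, and Q1 for the primes
is equivalent to the validity of Q1, almost surely, for the displaced primes, for all these `D`.
-/

set_option autoImplicit false

namespace Pool.Agent.Results.MP_293bbf_nt.DisplacedUniform

open Filter MeasureTheory Topology
open Pool.Agent.Q268.DP (Disp moved)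

/-- `R(x, y)` with the set `S` in place of the primes: the number of elements of `S` in `(x, x + y]` divided
by `y / log x` -/
noncomputable def R (S : Set ℕ) (x y : ℝ) : ℝ :=
  ({n : ℕ | n ∈ S ∧ x < n ∧ (n : ℝ) ≤ x + y}.ncard : ℕ) / (y / Real.log x)

/-- the question Q1 for the set `S` -/
def Q1 (S : Set ℕ) : Prop := ∀ ε : ℝ, 0 < ε → ∃ N : ℝ, 1 < N ∧ ∀ x y : ℝ, N ≤ x → Real.log x ^ N ≤ y → y ≤ x →
  |R S x y - 1| ≤ ε

/-- the asymptotic formula in all windows which are long compared with `log² x`: for each `ε > 0` there is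
`C` with `|R(x, y) - 1| ≤ ε` for all large `x` and all `y` with `C log² x ≤ y ≤ x` -/
def Q2 (S : Set ℕ) : Prop := ∀ ε : ℝ, 0 < ε → ∃ C : ℝ, 0 < C ∧ ∀ᶠ x : ℝ in atTop, ∀ y : ℝ,
  C * Real.log x ^ 2 ≤ y → y ≤ x → |R S x y - 1| ≤ ε

/-- the set of the primes -/
def primes : Set ℕ := {p : ℕ | p.Prime}

/-- the regular displacement bounds -/
def Regular (D : ℕ → ℕ) : Prop :=
  (∀ᶠ q : ℕ in atTop, D q ≤ D (q + 1) ∧ D (q + 1) ≤ D q + 1) ∧
  Tendsto (fun q : ℕ => (D q : ℝ) / q) atTop (𝓝 0) ∧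
  Tendsto (fun q : ℕ => (D (q + D q) : ℝ) / D q) atTop (𝓝 1)

/-- `D` grows faster than all powers of the logarithm -/
def Fast (D : ℕ → ℕ) : Prop := ∀ N : ℕ, ∀ᶠ q : ℕ in atTop, Real.log q ^ N ≤ D q

/-- the asymptotic formula for the primes in the windows `(n, n + D n]` -/
def PNT (D : ℕ → ℕ) : Prop := Tendsto (fun n : ℕ => R primes n (D n)) atTop (𝓝 1)

theorem regular_iff (D : ℕ → ℕ) : Regular D ↔ Pool.Agent.Q268.DL.Regular D :=
  ⟨fun h => ⟨h.1, h.2.1, h.2.2⟩, fun h => ⟨h.step, h.small, h.ratio⟩⟩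

theorem pnt_iff (D : ℕ → ℕ) : PNT D ↔ Tendsto (Pool.Agent.Q268.DL.RD D) atTop (𝓝 1) := by
  have h : (fun n : ℕ => R primes n (D n)) = Pool.Agent.Q268.DL.RD D := by
    funext n
    have h1 : R primes n (D n) = (Pool.Agent.Q268.DL.cR primes n (D n) : ℝ) / ((D n : ℝ) / Real.log n) := rfl
    rw [h1, Pool.Agent.Q268.DL.cR_nat]
    rfl
  unfold PNT
  rw [h]

theorem tendsto_of_log {D : ℕ → ℕ} {c : ℝ} (hc : 0 < c) (h3 : ∀ᶠ q : ℕ in atTop, c * Real.log q ^ 3 ≤ D q) :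
    Tendsto D atTop atTop := by
  have h1 : Tendsto (fun q : ℕ => c * Real.log q ^ 3) atTop atTop :=
    ((tendsto_pow_atTop (by norm_num)).comp
      (Real.tendsto_log_atTop.comp tendsto_natCast_atTop_atTop)).const_mul_atTop hc
  exact tendsto_natCast_atTop_iff.1 (tendsto_atTop_mono' _ h3 h1)

theorem core {D : ℕ → ℕ} (hR : Regular D) {c : ℝ} (hc : 0 < c)
    (h3 : ∀ᶠ q : ℕ in atTop, c * Real.log q ^ 3 ≤ D q) {Ω : Type} [MeasurableSpace Ω] {μ : Measure Ω}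
    {X : ℕ → Ω → ℕ} (hX : Disp μ X D) :
    ∀ᵐ ω ∂μ, Pool.Agent.Q268.DL.Core (moved Nat.Prime X ω) D := by
  obtain ⟨q₀, hq₀⟩ := eventually_atTop.1 hR.1
  exact Pool.Agent.Q268.DL.core_all hX
    (Pool.Agent.Q268.DL.dn_tendsto (fun q hq => (hq₀ q hq).1) (tendsto_of_log hc h3))

theorem fast_log {D : ℕ → ℕ} (hF : Fast D) : ∀ᶠ q : ℕ in atTop, 1 * Real.log q ^ 3 ≤ D q := by
  filter_upwards [hF 3] with q hq
  rwa [one_mul]

theorem main {D : ℕ → ℕ} (hR : Regular D) {c : ℝ} (hc : 0 < c)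
    (h3 : ∀ᶠ q : ℕ in atTop, c * Real.log q ^ 3 ≤ D q) {Ω : Type} [MeasurableSpace Ω] {μ : Measure Ω}
    {X : ℕ → Ω → ℕ} (hX : Disp μ X D) :
    ∀ᵐ ω ∂μ, (Q2 (moved Nat.Prime X ω) ↔ PNT D) ∧ (Fast D → (Q1 (moved Nat.Prime X ω) ↔ PNT D)) := by
  filter_upwards [core hR hc h3 hX] with ω hω
  rw [pnt_iff]
  exact ⟨Pool.Agent.Q268.DL.UF_iff ((regular_iff D).1 hR) hc h3 hω,
    fun hF => Pool.Agent.Q268.DL.QU_iff ((regular_iff D).1 hR) hF hω⟩

theorem disp_prob {Ω : Type} [MeasurableSpace Ω] {μ : Measure Ω} {X : ℕ → Ω → ℕ} {D : ℕ → ℕ}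
    (hX : Disp μ X D) : IsProbabilityMeasure μ := hX.indep.isProbabilityMeasure

theorem Q1_iff : Q1 primes ↔ ∀ D : ℕ → ℕ, Regular D → Fast D → PNT D := by
  constructor
  · intro h D hR hF
    rw [pnt_iff]
    exact Pool.Agent.Q268.DL.QU_iff_all.1 h D ((regular_iff D).1 hR) hF
  · intro h
    apply Pool.Agent.Q268.DL.QU_iff_all.2
    intro D hR hF
    rw [← pnt_iff]
    exact h D ((regular_iff D).2 hR) hF

theorem R_prime {x y : ℝ} (hx : 0 ≤ x) (hy : 0 ≤ y) :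
    R primes x y = ((Nat.primeCounting ⌊x + y⌋₊ : ℝ) - (Nat.primeCounting ⌊x⌋₊ : ℝ)) / (y / Real.log x) := by
  have h1 := Pool.Agent.Q268.DL.cR_eq primes hx hy
  unfold R
  have h2 : ({n : ℕ | n ∈ primes ∧ x < n ∧ (n : ℝ) ≤ x + y}.ncard : ℝ) =
      Pool.Agent.Q268.DL.cR primes x y := rfl
  rw [h2, h1]
  congr 2
  · exact Pool.Agent.Q268.DL.ct_PP _
  · exact Pool.Agent.Q268.DL.ct_PP _

theorem result :
    -- families of displacements exist
    (∀ D : ℕ → ℕ, ∃ μ : Measure (ℕ → ℕ), Disp μ (fun q ω => ω q) D) ∧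
    -- `Q1 primes` is the question
    (Q1 primes ↔ ∀ ε : ℝ, 0 < ε → ∃ N : ℝ, 1 < N ∧ ∀ x y : ℝ, N ≤ x → Real.log x ^ N ≤ y → y ≤ x →
      |((Nat.primeCounting ⌊x + y⌋₊ : ℝ) - (Nat.primeCounting ⌊x⌋₊ : ℝ)) / (y / Real.log x) - 1| ≤ ε) ∧
    -- the displaced primes, reduced to one asymptotic formula for the primes
    (∀ D : ℕ → ℕ, Regular D → ∀ c : ℝ, 0 < c → (∀ᶠ q : ℕ in atTop, c * Real.log q ^ 3 ≤ D q) →
      ∀ (Ω : Type) [MeasurableSpace Ω] (μ : Measure Ω) (X : ℕ → Ω → ℕ), Disp μ X D →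
        ∀ᵐ ω ∂μ, (Q2 (moved Nat.Prime X ω) ↔ PNT D) ∧
          (Fast D → (Q1 (moved Nat.Prime X ω) ↔ PNT D))) ∧
    -- the question for the primes
    (Q1 primes ↔ ∀ D : ℕ → ℕ, Regular D → Fast D → PNT D) ∧
    (Q1 primes ↔ ∀ D : ℕ → ℕ, Regular D → Fast D →
      ∀ (Ω : Type) [MeasurableSpace Ω] (μ : Measure Ω) (X : ℕ → Ω → ℕ), Disp μ X D →
        ∀ᵐ ω ∂μ, Q2 (moved Nat.Prime X ω)) ∧
    -- `D q = ⌊q^θ⌋` is admissible
    (∀ θ : ℝ, 0 < θ → θ < 1 → Regular (fun q => ⌊(q : ℝ) ^ θ⌋₊) ∧ Fast (fun q => ⌊(q : ℝ) ^ θ⌋₊)) ∧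
    -- `D q = ⌊(log q)^u⌋`: the same answer as for the primes
    (∀ u : ℝ, 0 < u → ∀ (Ω : Type) [MeasurableSpace Ω] (μ : Measure Ω) (X : ℕ → Ω → ℕ),
      Disp μ X (fun q => ⌊Real.log q ^ u⌋₊) → ∀ᵐ ω ∂μ,
        (Q1 (moved Nat.Prime X ω) ↔ Q1 primes) ∧ ¬ Q2 (moved Nat.Prime X ω)) ∧
    -- `D q = ⌊q / (log q)^B⌋`: the answer is yes
    (∀ B : ℝ, 0 < B → ∀ (Ω : Type) [MeasurableSpace Ω] (μ : Measure Ω) (X : ℕ → Ω → ℕ),
      Disp μ X (fun q => ⌊(q : ℝ) / Real.log q ^ B⌋₊) → ∀ᵐ ω ∂μ,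
        Q2 (moved Nat.Prime X ω) ∧ Q1 (moved Nat.Prime X ω)) := by
  refine ⟨Pool.Agent.Q268.DP.exists_disp, ?_, ?_, Q1_iff, ?_, ?_, ?_, ?_⟩
  · unfold Q1
    refine forall_congr' fun ε => forall_congr' fun _ => exists_congr fun N => and_congr_right fun hN =>
      forall_congr' fun x => forall_congr' fun y => forall_congr' fun hx => forall_congr' fun hy =>
      forall_congr' fun _ => ?_
    have hx1 : 1 ≤ x := by linarith
    have hy0 : 0 ≤ y := (Real.rpow_nonneg (Real.log_nonneg hx1) N).trans hy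
    rw [R_prime (by linarith) hy0]
  · intro D hR c hc h3 Ω _ μ X hX
    exact main hR hc h3 hX
  · rw [Q1_iff]
    constructor
    · intro h D hR hF Ω _ μ X hX
      filter_upwards [main hR one_pos (fast_log hF) hX] with ω hω
      exact hω.1.2 (h D hR hF)
    · intro h D hR hF
      obtain ⟨μ, hμ⟩ := Pool.Agent.Q268.DP.exists_disp D
      have := disp_prob hμ
      have h1 := h D hR hF (ℕ → ℕ) μ _ hμ
      obtain ⟨ω, h2, h3⟩ := (h1.and (main hR one_pos (fast_log hF) hμ)).exists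
      exact h3.1.1 h2
  · intro θ h0 h1
    exact ⟨(regular_iff _).2 (Pool.Agent.Q268.DL.Dθ_regular h0 h1), Pool.Agent.Q268.DL.Dθ_pow h0⟩
  · intro u hu Ω _ μ X hX
    obtain ⟨q₀, hq₀⟩ := Pool.Agent.Q268.DL.Du_step hu.le
    have hC := Pool.Agent.Q268.DL.core_all hX
      (Pool.Agent.Q268.DL.dn_tendsto (fun q hq => (hq₀ q hq).1) (Pool.Agent.Q268.DL.Du_tendsto hu))
    filter_upwards [hC, Pool.Agent.Q268.DL.not_UF_Du hu hX] with ω h1 h2
    exact ⟨Pool.Agent.Q268.DL.QU_Du hu h1, h2⟩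
  · intro B hB Ω _ μ X hX
    have hR : Regular (Pool.Agent.Q268.DP.DB B) := (regular_iff _).2 (Pool.Agent.Q268.DL.DB_regular hB)
    have hF : Fast (Pool.Agent.Q268.DP.DB B) := Pool.Agent.Q268.DL.DB_pow B
    have hP : PNT (Pool.Agent.Q268.DP.DB B) := (pnt_iff _).2 (Pool.Agent.Q268.DL.DB_PF hB)
    filter_upwards [main hR one_pos (fast_log hF) hX] with ω hω
    exact ⟨hω.1.2 hP, (hω.2 hF).2 hP⟩

end Pool.Agent.Results.MP_293bbf_nt.DisplacedUniform
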