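import Pool.Agent.Q120.CL.U2

/-!
# Uniform asymptotics for short intervals in the sieved models of the primes of all levels

`z : ℕ → ℕ` gives the level: on the block `2 ^ k ≤ n < 2 ^ (k + 1)` the random set contains each `n` without prime
factors `p < z k` independently with probability `1 / (V log n)` (at most `1`), `V = ∏_{p < z k} (1 - 1/p)`, and no other `n`.

`RR S x y` is `log x / y` times the number of elements of `S` in `(x, x + y]`.
-/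

set_option autoImplicit false

namespace Pool.Agent.Results.MP_293bbf_nt.ModelsOfAllLevels

open Finset MeasureTheory Filter Pool.Agent.Q120.MG Pool.Agent.Q120.GM Pool.Agent.Q120.CL
open scoped Topology

variable {Ω : Type*} [MeasurableSpace Ω] {μ : Measure Ω} [IsProbabilityMeasure μ] {A : Ω → Set ℕ} {z : ℕ → ℕ}

/-- The question for the set `S` in place of the primes. -/
def Q1 (S : Set ℕ) : Prop :=
  ∀ ε : ℝ, 0 < ε → ∃ N : ℝ, 1 < N ∧ ∀ x : ℝ, N ≤ x → ∀ y : ℝ, Real.log x ^ N ≤ y → y ≤ x → |RR S x y - 1| ≤ ε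

theorem not_small (h : ¬ Tendsto (fun k : ℕ => Real.log (z k) / Real.log k) atTop (𝓝 0)) :
    ∃ δ : ℝ, 0 < δ ∧ ∃ᶠ k : ℕ in atTop, (k : ℝ) ^ δ ≤ z k := by
  by_contra hcon
  push Not at hcon
  apply h
  have hnn : ∀ k : ℕ, 0 ≤ Real.log (z k) / Real.log k := fun k =>
    div_nonneg (Real.log_natCast_nonneg _) (Real.log_natCast_nonneg _)
  rw [Metric.tendsto_atTop]
  intro δ hδ
  have h2 := hcon (δ / 2) (by linarith)
  obtain ⟨K, hK⟩ := eventually_atTop.1 (h2.and (eventually_ge_atTop 2))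
  refine ⟨K, fun k hk => ?_⟩
  obtain ⟨h3, h4⟩ := hK k hk
  have hk2 : (2 : ℝ) ≤ k := by exact_mod_cast h4
  have hlk : 0 < Real.log (k : ℝ) := Real.log_pos (by linarith)
  rw [Real.dist_eq, sub_zero, abs_of_nonneg (hnn k), div_lt_iff₀ hlk]
  rcases Nat.eq_zero_or_pos (z k) with h5 | h5
  · rw [h5]
    simp only [Nat.cast_zero, Real.log_zero]
    positivity
  · have h6 : (0 : ℝ) < z k := by exact_mod_cast h5
    have h7 := Real.log_le_log h6 h3.le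
    rw [Real.log_rpow (by linarith)] at h7
    nlinarith

theorem small_pow (h : Tendsto (fun k : ℕ => Real.log (z k) / Real.log k) atTop (𝓝 0)) {s : ℕ} (hs : 1 ≤ s) :
    ∀ᶠ k : ℕ in atTop, (z k : ℝ) ^ s ≤ (k : ℝ) ^ (1 : ℝ) := by
  have hs0 : (0 : ℝ) < s := by exact_mod_cast hs
  filter_upwards [h.eventually (ge_mem_nhds (show (0 : ℝ) < 1 / s by positivity)), eventually_ge_atTop 2] with k h3 hk2
  have hk2' : (2 : ℝ) ≤ k := by exact_mod_cast hk2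
  have hlk : 0 < Real.log (k : ℝ) := Real.log_pos (by linarith)
  rw [div_le_iff₀ hlk] at h3
  rw [Real.rpow_one]
  rcases Nat.eq_zero_or_pos (z k) with h6 | h6
  · rw [h6, Nat.cast_zero, zero_pow (by omega)]
    linarith
  · have h7 : (0 : ℝ) < z k := by exact_mod_cast h6
    rw [← Real.log_le_log_iff (by positivity) (by linarith), Real.log_pow]
    calc (s : ℝ) * Real.log (z k) ≤ s * (1 / s * Real.log k) := mul_le_mul_of_nonneg_left h3 hs0.le
      _ = Real.log k := by field_simp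

/-- The uniform exponent. -/
theorem uniform {ε : ℝ} (hε : 0 < ε) (C : ℕ) : ∃ N : ℝ, 1 < N ∧
    ∀ (Ω : Type) (_ : MeasurableSpace Ω) (μ : Measure Ω) (_ : IsProbabilityMeasure μ) (A : Ω → Set ℕ) (z : ℕ → ℕ),
      (∀ᶠ k : ℕ in atTop, z k ≤ k ^ C) → IsModel μ (pr z) A → ∀ᵐ ω ∂μ,
        ∀ᶠ x : ℝ in atTop, ∀ y : ℝ, Real.log x ^ N ≤ y → y ≤ x → |RR (A ω) x y - 1| ≤ ε := by
  obtain ⟨κ, hκ⟩ : ∃ κ, κ = min (ε / 8) (1 / 4) := ⟨_, rfl⟩
  have hκ0 : 0 < κ := by rw [hκ]; exact lt_min (by linarith) (by norm_num)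
  have hκ1 : κ ≤ ε / 8 := by rw [hκ]; exact min_le_left _ _
  have hκ2 : κ ≤ 1 / 4 := by rw [hκ]; exact min_le_right _ _
  obtain ⟨s, hs, hreg⟩ := ex_uniform hκ0 hκ2
  have hCs0 : 0 ≤ (C : ℝ) * s := by positivity
  refine ⟨(C : ℝ) * s + 4, by linarith, fun Ω _ μ _ A z hz hA => ?_⟩
  have hz' : ∀ᶠ k : ℕ in atTop, z k ≤ k ^ (C + 1) := by
    filter_upwards [hz, eventually_ge_atTop 1] with k h1 h2
    exact h1.trans (Nat.pow_le_pow_right h2 (by omega))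
  have hHV := HV_of_pow (Nat.succ_pos C) hz'
  have hb : ∀ᶠ k : ℕ in atTop, (z k : ℝ) ^ s ≤ (k : ℝ) ^ ((C : ℝ) * s) := by
    filter_upwards [hz] with k h1
    have h2 : (z k : ℝ) ≤ (k : ℝ) ^ C := by exact_mod_cast h1
    calc (z k : ℝ) ^ s ≤ ((k : ℝ) ^ C) ^ s := pow_le_pow_left₀ (Nat.cast_nonneg _) h2 s
      _ = (k : ℝ) ^ ((C : ℝ) * s) := by
        rw [← pow_mul, ← Real.rpow_natCast]
        push_cast
        rfl
  filter_upwards [conc' hA hHV one_pos hκ0 (by linarith)] with ω hω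
  have hCs : 0 ≤ (C : ℝ) * s := by positivity
  filter_upwards [RR_near hκ0 hκ2 one_pos hω (hreg z _ ((C : ℝ) * s + 1) hCs (by linarith) hHV hb)
    (a := (C : ℝ) * s + 4) (by linarith) (by linarith)] with x hx y hy1 hy2
  linarith [hx y hy1 hy2]

/-- The question has a positive answer in the models. -/
theorem question (C : ℕ) (Ω : Type) [MeasurableSpace Ω] (μ : Measure Ω) [IsProbabilityMeasure μ] (A : Ω → Set ℕ) (z : ℕ → ℕ)
    (hz : ∀ᶠ k : ℕ in atTop, z k ≤ k ^ C) (hA : IsModel μ (pr z) A) : ∀ᵐ ω ∂μ, Q1 (A ω) := by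
  have h1 : ∀ᵐ ω ∂μ, ∀ j : ℕ, ∃ N : ℝ, 1 < N ∧ ∀ᶠ x : ℝ in atTop, ∀ y : ℝ, Real.log x ^ N ≤ y → y ≤ x →
      |RR (A ω) x y - 1| ≤ 1 / ((j : ℝ) + 1) := by
    rw [ae_all_iff]
    intro j
    obtain ⟨N, hN, h⟩ := uniform (show (0 : ℝ) < 1 / ((j : ℝ) + 1) by positivity) C
    filter_upwards [h Ω inferInstance μ inferInstance A z hz hA] with ω hω
    exact ⟨N, hN, hω⟩
  filter_upwards [h1] with ω hω ε hε
  obtain ⟨j, hj⟩ := exists_nat_gt (1 / ε)
  obtain ⟨N, hN, h2⟩ := hω j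
  obtain ⟨X, hX⟩ := eventually_atTop.1 h2
  refine ⟨max N (max X 3), lt_of_lt_of_le hN (le_max_left _ _), fun x hx y hy1 hy2 => ?_⟩
  have hx1 : N ≤ x := (le_max_left _ _).trans hx
  have hx2 : X ≤ x := ((le_max_left _ _).trans (le_max_right _ _)).trans hx
  have hx3 : (3 : ℝ) ≤ x := ((le_max_right _ _).trans (le_max_right _ _)).trans hx
  have hlog : 1 ≤ Real.log x := by
    have h3 := Real.exp_one_lt_d9
    rw [← Real.log_exp 1]
    exact Real.log_le_log (Real.exp_pos 1) (by linarith)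
  have h4 : Real.log x ^ N ≤ y := (Real.rpow_le_rpow_of_exponent_le hlog (le_max_left _ _)).trans hy1
  refine (hX x hx2 y h4 hy2).trans ?_
  rw [div_le_iff₀ (by positivity)]
  rw [div_lt_iff₀ hε] at hj
  linarith

/-- Small levels. -/
theorem small_level (hA : IsModel μ (pr z) A) (hz : ∀ᶠ k : ℕ in atTop, z k ≤ k)
    (h : Tendsto (fun k : ℕ => Real.log (z k) / Real.log k) atTop (𝓝 0)) :
    ∀ᵐ ω ∂μ, ∀ a ε : ℝ, 2 < a → 0 < ε → ∀ᶠ x : ℝ in atTop, ∀ y : ℝ, Real.log x ^ a ≤ y → y ≤ x → |RR (A ω) x y - 1| ≤ ε := by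
  have hHV := HV_of_le hz
  have h1 : ∀ᵐ ω ∂μ, ∀ i j : ℕ, ∀ᶠ k : ℕ in atTop, ∀ n : ℕ, 2 ^ k ≤ n → n < 2 ^ (k + 1) → ∀ t : ℕ,
      (k : ℝ) ^ (2 + 1 / ((i : ℝ) + 1)) ≤ t → t ≤ 2 ^ (k + 1) → |(cnt (A ω) n t : ℝ) - ex z n t| ≤ 1 / (4 * ((j : ℝ) + 1)) * (t / k) := by
    rw [ae_all_iff]
    intro i
    rw [ae_all_iff]
    intro j
    refine conc' hA hHV (by positivity) (by positivity) ?_
    rw [div_le_one (by positivity)]
    have : (0 : ℝ) ≤ j := Nat.cast_nonneg j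
    linarith
  filter_upwards [h1] with ω hω a ε ha hε
  obtain ⟨i, hi⟩ := exists_nat_gt (1 / (a - 2))
  obtain ⟨j, hj⟩ := exists_nat_gt (2 / ε)
  have hi1 : 2 + 1 / ((i : ℝ) + 1) < a := by
    have h1 : 1 / ((i : ℝ) + 1) < a - 2 := by
      rw [div_lt_iff₀ (by positivity)]
      rw [div_lt_iff₀ (by linarith)] at hi
      nlinarith
    linarith
  have hκ0 : (0 : ℝ) < 1 / (4 * ((j : ℝ) + 1)) := by positivity
  have hκ2 : 1 / (4 * ((j : ℝ) + 1)) ≤ (1 : ℝ) / 4 := by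
    rw [div_le_div_iff₀ (by positivity) (by norm_num)]
    have : (0 : ℝ) ≤ j := Nat.cast_nonneg j
    linarith
  obtain ⟨s, hs, hreg⟩ := ex_uniform hκ0 hκ2
  filter_upwards [RR_near hκ0 hκ2 (show (0 : ℝ) < 1 / ((i : ℝ) + 1) by positivity) (hω i j)
    (hreg z 1 2 (by norm_num) (by norm_num) hHV (small_pow h hs)) hi1 (by linarith)] with x hx y hy1 hy2
  refine (hx y hy1 hy2).trans ?_
  rw [mul_one_div, div_le_iff₀ (by positivity)]
  rw [div_lt_iff₀ hε] at hj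
  linarith

/-- Large levels. -/
theorem large_level (hA : IsModel μ (pr z) A) (hz : ∀ᶠ k : ℕ in atTop, z k ≤ k)
    (h : ¬ Tendsto (fun k : ℕ => Real.log (z k) / Real.log k) atTop (𝓝 0)) :
    ∀ᵐ ω ∂μ, ∀ a : ℝ, 2 < a → ∃ ε : ℝ, 0 < ε ∧ (∃ᶠ x : ℝ in atTop, 1 + ε ≤ RR (A ω) x (Real.log x ^ a)) ∧
      ∃ᶠ x : ℝ in atTop, RR (A ω) x (Real.log x ^ a) ≤ 1 - ε := by
  filter_upwards [Ra_Da hA hz] with ω hω a ha
  obtain ⟨δ, hδ, hf⟩ := not_small h
  obtain ⟨κ, hκ, _, hirr⟩ := Da_irregular hδ (show 0 < a by linarith)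
  have h2 := hirr z hz hf
  have h3 := (hω a ha).eventually (ge_mem_nhds (show (0 : ℝ) < κ / 2 by linarith))
  have h4 := (hω a ha).eventually (le_mem_nhds (show -(κ / 2) < (0 : ℝ) by linarith))
  have h5 : ∀ x : ℝ, Ra (A ω) a x = RR (A ω) x (Real.log x ^ a) := by
    intro x
    unfold Ra RR
    rw [div_div_eq_mul_div]
    ring
  refine ⟨κ / 2, by linarith, (h2.1.and_eventually h4).mono (fun x hx => ?_), (h2.2.and_eventually h3).mono (fun x hx => ?_)⟩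
  · rw [← h5]
    linarith [hx.1, hx.2]
  · rw [← h5]
    linarith [hx.1, hx.2]

/-- The exponent two is optimal at all levels. -/
theorem exponent_two (hA : IsModel μ (pr z) A) (hz : Tendsto (fun k : ℕ => (z k : ℝ) / k) atTop (𝓝 0)) :
    ∀ᵐ ω ∂μ, ∀ a : ℝ, a < 2 → ∃ᶠ x : ℝ in atTop, RR (A ω) x (Real.log x ^ a) = 0 := by
  have hl2 : 0 < Real.log 2 := Real.log_pos (by norm_num)
  have ht : ∀ᶠ k : ℕ in atTop, ((⌊bud k / 2⌋₊ : ℕ) : ℝ) ≤ 1 * (k : ℝ) ^ 2 := by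
    refine Eventually.of_forall (fun k => ?_)
    have h1 := bud_nonneg k
    have h2 := bud_upper k
    have h3 := Nat.floor_le (show 0 ≤ bud k / 2 by linarith)
    linarith
  filter_upwards [lower hA hz (show (0 : ℝ) < 1 / 2 by norm_num) (by norm_num) (t := fun k => ⌊bud k / 2⌋₊) ht] with ω hω a ha
  obtain ⟨a', ha'⟩ : ∃ a', a' = max a 1 := ⟨_, rfl⟩
  have ha1 : a ≤ a' := by rw [ha']; exact le_max_left _ _
  have ha2 : a' < 2 := by rw [ha']; exact max_lt ha (by norm_num)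
  have ha3 : 1 ≤ a' := by rw [ha']; exact le_max_right _ _
  have h4 : ∀ᶠ k : ℕ in atTop, 16 * (k : ℝ) ^ a' ≤ bud k := pow_small ha2
  have hfin : ∀ᶠ k : ℕ in atTop, ∃ x : ℝ, (2 : ℝ) ^ k ≤ x ∧ RR (A ω) x (Real.log x ^ a) = 0 := by
    filter_upwards [hω, h4, eventually_ge_atTop 4] with k h1 h2 hk
    have hk4 : (4 : ℝ) ≤ k := by exact_mod_cast hk
    obtain ⟨n, hn1, hn2, hn3⟩ := h1 (by
      obtain ⟨a₀, ha₀⟩ := exists_avg (z k) ⌊bud k / 2⌋₊
      refine ⟨a₀, ha₀.trans ?_⟩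
      have e1 := Nat.floor_le (show 0 ≤ bud k / 2 by linarith [bud_nonneg k])
      have e2 := mul_le_mul_of_nonneg_left e1 (Vf_pos (z k)).le
      linarith)
    have hn1' : (2 : ℝ) ^ k ≤ n := by exact_mod_cast hn1
    refine ⟨n, hn1', ?_⟩
    have hn2' : n < 2 ^ (k + 1) := by omega
    obtain ⟨_, e1, e2⟩ := log_block hn1 hn2'
    have hk0 : (0 : ℝ) < k := by linarith
    have hlog1 : 1 ≤ Real.log n := by
      have := Real.log_two_gt_d9
      nlinarith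
    have hlogk : Real.log n ≤ 2 * k := by
      have := Real.log_two_lt_d9
      nlinarith
    have e3 : Real.log n ^ a ≤ 4 * (k : ℝ) ^ a' := by
      calc Real.log n ^ a ≤ Real.log n ^ a' := Real.rpow_le_rpow_of_exponent_le hlog1 ha1
        _ ≤ (2 * (k : ℝ)) ^ a' := Real.rpow_le_rpow (by linarith) hlogk (by linarith)
        _ = 2 ^ a' * (k : ℝ) ^ a' := Real.mul_rpow (by norm_num) hk0.le
        _ ≤ 2 ^ (2 : ℝ) * (k : ℝ) ^ a' := by
          refine mul_le_mul_of_nonneg_right ?_ (by positivity)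
          exact Real.rpow_le_rpow_of_exponent_le (by norm_num) ha2.le
        _ = 4 * (k : ℝ) ^ a' := by norm_num
    have e4 : 1 ≤ (k : ℝ) ^ a' := Real.one_le_rpow (by linarith) (by linarith)
    have e5 := Nat.lt_floor_add_one (bud k / 2)
    have e6 : Real.log n ^ a < ((⌊bud k / 2⌋₊ : ℕ) : ℝ) := by linarith
    have e7 : ⌊(n : ℝ) + Real.log n ^ a⌋₊ ≤ n + ⌊bud k / 2⌋₊ := by
      have f1 := Nat.floor_le (show 0 ≤ (n : ℝ) + Real.log n ^ a by positivity)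
      have f2 : ((⌊(n : ℝ) + Real.log n ^ a⌋₊ : ℕ) : ℝ) ≤ ((n + ⌊bud k / 2⌋₊ : ℕ) : ℝ) := by
        push_cast
        linarith
      exact_mod_cast f2
    have e8 : n ≤ ⌊(n : ℝ) + Real.log n ^ a⌋₊ := by
      refine Nat.le_floor ?_
      have : 0 ≤ Real.log n ^ a := by positivity
      linarith
    unfold RR
    rw [Nat.floor_natCast]
    obtain ⟨r, hr⟩ : ∃ r, r = ⌊(n : ℝ) + Real.log n ^ a⌋₊ - n := ⟨_, rfl⟩
    have e9 : ⌊(n : ℝ) + Real.log n ^ a⌋₊ = n + r := by omega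
    have e10 : cnt (A ω) n r = 0 := by
      classical
      unfold cnt
      rw [card_eq_zero, filter_eq_empty_iff]
      intro m hm hmA
      rw [mem_Ioc] at hm
      have := hn3 m hmA hm.1
      omega
    rw [e9, cnt_add, zero_add, e10, add_zero, sub_self, zero_div]
  rw [frequently_atTop]
  intro X
  obtain ⟨K, hK⟩ := exists_nat_ge X
  obtain ⟨k, ⟨x, hx1, hx2⟩, hkK⟩ := (hfin.and (eventually_ge_atTop K)).exists
  refine ⟨x, ?_, hx2⟩
  have e1 : (K : ℝ) < 2 ^ K := by exact_mod_cast Nat.lt_two_pow_self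
  have e2 : (2 : ℝ) ^ K ≤ 2 ^ k := pow_le_pow_right₀ (by norm_num) hkK
  linarith

/-- **The question in the models of all levels.** -/
theorem result :
    -- the models exist
    (∀ z : ℕ → ℕ, IsModel (prodMeasure (pr z)) (pr z) (trueSet (ι := ℕ))) ∧
    -- the question has a positive answer at every level up to a power of the logarithm
    (∀ (C : ℕ) (Ω : Type) (_ : MeasurableSpace Ω) (μ : Measure Ω) (_ : IsProbabilityMeasure μ) (A : Ω → Set ℕ) (z : ℕ → ℕ),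
      (∀ᶠ k : ℕ in atTop, z k ≤ k ^ C) → IsModel μ (pr z) A → ∀ᵐ ω ∂μ, Q1 (A ω)) ∧
    -- with an exponent that depends only on `ε` and `C`
    (∀ (ε : ℝ), 0 < ε → ∀ C : ℕ, ∃ N : ℝ, 1 < N ∧
      ∀ (Ω : Type) (_ : MeasurableSpace Ω) (μ : Measure Ω) (_ : IsProbabilityMeasure μ) (A : Ω → Set ℕ) (z : ℕ → ℕ),
        (∀ᶠ k : ℕ in atTop, z k ≤ k ^ C) → IsModel μ (pr z) A → ∀ᵐ ω ∂μ,
          ∀ᶠ x : ℝ in atTop, ∀ y : ℝ, Real.log x ^ N ≤ y → y ≤ x → |RR (A ω) x y - 1| ≤ ε) ∧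
    -- levels up to `k`: one exponent serves all `ε` if and only if the level is `(log x) ^ o(1)`
    (∀ (Ω : Type) (_ : MeasurableSpace Ω) (μ : Measure Ω) (_ : IsProbabilityMeasure μ) (A : Ω → Set ℕ) (z : ℕ → ℕ),
      (∀ᶠ k : ℕ in atTop, z k ≤ k) → IsModel μ (pr z) A →
        (Tendsto (fun k : ℕ => Real.log (z k) / Real.log k) atTop (𝓝 0) →
          ∀ᵐ ω ∂μ, ∀ a ε : ℝ, 2 < a → 0 < ε → ∀ᶠ x : ℝ in atTop, ∀ y : ℝ, Real.log x ^ a ≤ y → y ≤ x → |RR (A ω) x y - 1| ≤ ε) ∧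
        (¬ Tendsto (fun k : ℕ => Real.log (z k) / Real.log k) atTop (𝓝 0) →
          ∀ᵐ ω ∂μ, ∀ a : ℝ, 2 < a → ∃ ε : ℝ, 0 < ε ∧ (∃ᶠ x : ℝ in atTop, 1 + ε ≤ RR (A ω) x (Real.log x ^ a)) ∧
            ∃ᶠ x : ℝ in atTop, RR (A ω) x (Real.log x ^ a) ≤ 1 - ε)) ∧
    -- below the exponent two there are empty intervals at all levels
    (∀ (Ω : Type) (_ : MeasurableSpace Ω) (μ : Measure Ω) (_ : IsProbabilityMeasure μ) (A : Ω → Set ℕ) (z : ℕ → ℕ),
      Tendsto (fun k : ℕ => (z k : ℝ) / k) atTop (𝓝 0) → IsModel μ (pr z) A →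
        ∀ᵐ ω ∂μ, ∀ a : ℝ, a < 2 → ∃ᶠ x : ℝ in atTop, RR (A ω) x (Real.log x ^ a) = 0) := by
  refine ⟨fun z => isModel (pr z) (pr_nonneg z) (pr_le_one z), ?_, fun ε hε C => uniform hε C, ?_, ?_⟩
  · intro C Ω _ μ _ A z hz hA
    exact question C Ω μ A z hz hA
  · intro Ω _ μ _ A z hz hA
    exact ⟨fun h => small_level hA hz h, fun h => large_level hA hz h⟩
  · intro Ω _ μ _ A z hz hA
    exact exponent_two hA hz

end Pool.Agent.Results.MP_293bbf_nt.ModelsOfAllLevels
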