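import Pool.Agent.Q198.CI.T1

/-!
# Short intervals in Cramér's model with independence of order `k`

In Cramér's random model every integer `n ≥ 3` belongs to the random set `A` with probability
`1 / log n`, and the events `n ∈ A` are independent. In the model with independence of order `κ`
only those sets `T` of events have to be independent whose number of elements is at most `κ n` for
all `n ∈ T`; so it is known that `A` has the right correlations of order `k = κ` (as the primes
should have by the conjectures of Hardy and Littlewood), and nothing else.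

Put `m = ⌊k / 2⌋`. The theorem says what independence of order `k ≥ 2` gives in short intervals.
(1) Almost surely the asymptotic formula `#(A ∩ (x, x + H]) ~ H / log x` holds uniformly for
    `x ^ (1 / (m + 1)) (log x) ^ (1 + ε) ≤ H ≤ x`, in EVERY model with independence of order `k`.
(2) This is sharp: in SOME model with independence of order `k` there are almost surely for every
    `C` arbitrarily large `x` for which the interval
    `(x, x + C x ^ (1 / (m + 1)) log x]` contains no element of `A`.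
    For `k = 2, 3` the exponent is `1 / 2`, as in Cramér's theorem under the Riemann hypothesis.
(3) Let `κ` be nondecreasing. The asymptotic formula holds almost surely for all `ε > 0` uniformly
    for `x ^ ε ≤ H ≤ x`, in every model with independence of order `κ`, if and only if `κ n` tends
    to infinity.
-/

set_option autoImplicit false

namespace Pool.Agent.Results.MP_293bbf_nt.OrderOfIndependence

open MeasureTheory Filter Topology

/-- Cramér's model with independence of order `κ`: `E n` is the event that the integer `n` belongs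
to the random set. For every finite set `T` of integers `n ≥ 3` with at most `κ n` elements for
all `n ∈ T`, the probability that `T` is contained in the random set is `∏ 1 / log n`. -/
structure CramerModel {Ω : Type} [MeasurableSpace Ω] (P : Measure Ω) (κ : ℕ → ℕ)
    (E : ℕ → Set Ω) : Prop where
  meas : ∀ n, MeasurableSet (E n)
  indep : ∀ T : Finset ℕ, (∀ n ∈ T, 3 ≤ n ∧ T.card ≤ κ n) →
    P (⋂ n ∈ T, E n) = ENNReal.ofReal (∏ n ∈ T, 1 / Real.log n)

/-- the number of elements of the random set in the interval `(x, x + H]` -/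
noncomputable def count {Ω : Type} (E : ℕ → Set Ω) (ω : Ω) (x H : ℝ) : ℕ :=
  {n : ℕ | x < n ∧ (n : ℝ) ≤ x + H ∧ ω ∈ E n}.ncard

theorem result :
    (∀ k : ℕ, 2 ≤ k → ∀ (Ω : Type) [MeasurableSpace Ω] (P : Measure Ω) [IsProbabilityMeasure P]
      (κ : ℕ → ℕ) (E : ℕ → Set Ω), CramerModel P κ E → (∀ᶠ n : ℕ in atTop, k ≤ κ n) →
      ∀ ε : ℝ, 0 < ε → ∀ᵐ ω ∂P, ∀ η : ℝ, 0 < η → ∀ᶠ x : ℝ in atTop, ∀ H : ℝ,
        x ^ ((1:ℝ) / ((k / 2 : ℕ) + 1)) * Real.log x ^ (1 + ε) ≤ H → H ≤ x →
        |(count E ω x H : ℝ) * Real.log x / H - 1| ≤ η) ∧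
    (∀ k : ℕ, 2 ≤ k → ∃ (Ω : Type) (_ : MeasurableSpace Ω) (P : Measure Ω)
      (_ : IsProbabilityMeasure P) (E : ℕ → Set Ω), CramerModel P (fun _ => k) E ∧
      ∀ᵐ ω ∂P, ∀ C : ℝ, ∃ᶠ x : ℝ in atTop,
        count E ω x (C * (x ^ ((1:ℝ) / ((k / 2 : ℕ) + 1)) * Real.log x)) = 0) ∧
    (∀ κ : ℕ → ℕ, Monotone κ →
      ((∀ (Ω : Type) (_ : MeasurableSpace Ω) (P : Measure Ω) (_ : IsProbabilityMeasure P)
        (E : ℕ → Set Ω), CramerModel P κ E → ∀ᵐ ω ∂P, ∀ ε : ℝ, 0 < ε → ∀ η : ℝ, 0 < η →
        ∀ᶠ x : ℝ in atTop, ∀ H : ℝ, x ^ ε ≤ H → H ≤ x →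
        |(count E ω x H : ℝ) * Real.log x / H - 1| ≤ η) ↔
      Tendsto κ atTop atTop)) := by
  refine ⟨fun k hk Ω _ P _ κ E hM hκ ε hε => ?_, fun k hk => ?_, fun κ hmono => ?_⟩
  · exact Q198.CI.asymp_count (κ := κ) ⟨hM.meas, hM.indep⟩ hk hκ hε
  · obtain ⟨Ω, mΩ, P, hP, E, hM, hE⟩ := Q198.CI.gap_count hk
    exact ⟨Ω, mΩ, P, hP, E, ⟨hM.meas, hM.indep⟩, hE⟩
  · rw [← Q198.CI.iff_tendsto hmono]
    constructor
    · intro h Ω mΩ P hP E hM
      exact h Ω mΩ P hP E ⟨hM.meas, hM.indep⟩
    · intro h Ω mΩ P hP E hM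
      exact h Ω mΩ P hP E ⟨hM.meas, hM.indep⟩

end Pool.Agent.Results.MP_293bbf_nt.OrderOfIndependence
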