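import Pool.Agent.Q145.LD.Far
import Pool.Agent.Q145.RA.Shifts

set_option autoImplicit false
set_option maxHeartbeats 4000000

/-!
# Uniform prime asymptotics in all windows of random sequences of shifts

The question asks whether the number of primes in `(x, x + y]` is within `ε` of `y / log x`, in
the relative sense, uniformly in `(log x)^N ≤ y ≤ x` for a suitable `N = N(ε)`.  For the shifts
`1, 2, 3, ...` nobody knows.  We prove it, with the sharp threshold, for almost all sequences of
shifts `a_1, ..., a_K` from `[1, Y]`: all windows `a_(j+1), ..., a_(j+k)` of length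
`k ≥ (1 + γ) log (X K²) log Y / J(1 + ε)` are good for all `n ∈ V`, `#V = X`, and for windows of
length `(1 - γ) log X log Y / J(1 + ε)` this fails; `J(u) = 1 - u + u log u`.
-/

namespace Pool.Agent.Results.MP_293bbf_nt.UniformOverWindows

open Finset

open scoped Classical

/-- All sequences of length `K` of integers from `[1, Y]`. -/
def Seqs (Y K : ℕ) : Finset (Fin K → ℕ) := Fintype.piFinset (fun _ : Fin K => Icc 1 Y)

/-- The number of the primes among `n + a_i`, `j < i ≤ j + k`, times `log Y / k` (the terms of the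
sequence are `a_{i+1} = a i`, `i : Fin K`). -/
noncomputable def dens (Y : ℕ) {K : ℕ} (a : Fin K → ℕ) (j k n : ℕ) : ℝ :=
  Real.log Y / k * ((univ.filter (fun i : Fin K => j ≤ (i : ℕ) ∧ (i : ℕ) < j + k ∧ (n + a i).Prime)).card : ℝ)

/-- The rate function `1 - u + u log u`. -/
noncomputable def J (u : ℝ) : ℝ := 1 - u + u * Real.log u

open Pool.Agent.Q145.LD Pool.Agent.Q145.RA

theorem whit_eq {K : ℕ} (a : Fin K → ℕ) (j k n : ℕ) :
    ((univ.filter (fun i : Fin K => j ≤ (i : ℕ) ∧ (i : ℕ) < j + k ∧ (n + a i).Prime)).card : ℝ) =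
      whit (fun n a => (n + a).Prime) a j k n := by
  unfold whit
  rw [card_filter]
  push_cast
  apply sum_congr rfl
  intro i _
  split_ifs <;> rfl

theorem whit_full (K : ℕ) (a : Fin K → ℕ) : whit (fun n a => (n + a).Prime) a 0 K = hit (fun n a => (n + a).Prime) a := by
  funext n
  unfold whit hit
  apply sum_congr rfl
  intro i _
  by_cases h : (n + a i).Prime
  · rw [if_pos h, if_pos ⟨Nat.zero_le _, by have := i.2; omega, h⟩]
  · rw [if_neg h, if_neg (fun h' => h h'.2.2)]

theorem dens_eq (Y K j k : ℕ) (hY : 1 < Y) (hk : 0 < k) (a : Fin K → ℕ) (n : ℕ) :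
    dens Y a j k n = whit (fun n a => (n + a).Prime) a j k n / (k * (1 / Real.log Y)) := by
  have hL : 0 < Real.log Y := Real.log_pos (by exact_mod_cast hY)
  have hk0 : (0 : ℝ) < k := by exact_mod_cast hk
  unfold dens
  rw [whit_eq]
  field_simp

theorem result (ε γ : ℝ) (hε : 0 < ε) (hε1 : ε < 1) (hγ : 0 < γ) (hγ1 : γ ≤ 1) : ∃ X₀ : ℕ,
    ∀ (V : Finset ℕ) (Y : ℕ), X₀ ≤ V.card → V ⊆ Icc 1 Y → ∀ K : ℕ,
    (((Seqs Y K).filter (fun a => ¬ ∀ j k : ℕ, 0 < k → j + k ≤ K →
      (1 + γ) * (Real.log (V.card * (K : ℝ) ^ 2) * Real.log Y / J (1 + ε)) ≤ k →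
      ∀ n ∈ V, |dens Y a j k n - 1| ≤ ε)).card : ℝ) ≤ γ * (Y : ℝ) ^ K ∧
    (γ * (Real.log V.card * Real.log Y) ≤ K →
      (K : ℝ) ≤ (1 - γ) * (Real.log V.card * Real.log Y / J (1 + ε)) →
      (((Seqs Y K).filter (fun a => ¬ ∃ n ∈ V, 1 + ε ≤ dens Y a 0 K n)).card : ℝ) ≤ γ * (Y : ℝ) ^ K) := by
  have hJ : 0 < J (1 + ε) := I_pos (1 + ε) (by linarith) (by linarith)
  obtain ⟨η, X₁, hη, h1⟩ := windows (α := ℕ) (β := ℕ) ε γ hε hε1 hγ hγ1
  obtain ⟨m, h2⟩ := profile (α := ℕ) (β := ℕ) (1 / J (1 + ε)) γ (by positivity) hγ hγ1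
  obtain ⟨Y₁, h3⟩ := reg_shifts η hη
  obtain ⟨Y₂, h4⟩ := reg_shifts (1 / (m + 1 : ℝ)) (by positivity)
  refine ⟨max (max (max X₁ Y₁) (max m Y₂)) 3, fun V Y hX hV K => ?_⟩
  have hX₁ : X₁ ≤ V.card := ((le_max_left _ _).trans ((le_max_left _ _).trans (le_max_left _ _))).trans hX
  have hY₁ : Y₁ ≤ V.card := ((le_max_right _ _).trans ((le_max_left _ _).trans (le_max_left _ _))).trans hX
  have hm : m ≤ V.card := ((le_max_left _ _).trans ((le_max_right _ _).trans (le_max_left _ _))).trans hX
  have hY₂ : Y₂ ≤ V.card := ((le_max_right _ _).trans ((le_max_right _ _).trans (le_max_left _ _))).trans hX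
  have hX3 : 3 ≤ V.card := (le_max_right _ _).trans hX
  have hVY : V.card ≤ Y := by
    have := card_le_card hV
    rwa [Nat.card_Icc, Nat.add_sub_cancel] at this
  have hY1 : 1 < Y := by omega
  have hL : 0 < Real.log Y := Real.log_pos (by exact_mod_cast hY1)
  have hLX : 0 < Real.log V.card := Real.log_pos (by exact_mod_cast (by omega : 1 < V.card))
  constructor
  · have h5 := h1 (1 / Real.log Y) (Icc 1 Y) V (fun n a => (n + a).Prime) (by positivity)
      (h3 Y (hY₁.trans hVY) V hV hX3) hX₁ K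
    rw [Nat.card_Icc, Nat.add_sub_cancel] at h5
    refine le_trans ?_ h5
    apply Nat.cast_le.2
    apply card_le_card
    intro a ha
    unfold Seqs at ha
    rw [mem_filter] at ha ⊢
    refine ⟨ha.1, fun hP => ha.2 fun j k hk hjk hkk n hn => ?_⟩
    have hk0 : (0 : ℝ) < k := by exact_mod_cast hk
    have h6 := hP j k hjk (by
      have e1 : (1 + γ) * (Real.log (V.card * (K : ℝ) ^ 2) * Real.log Y / J (1 + ε)) =
          (1 + γ) * Real.log (V.card * (K : ℝ) ^ 2) * (Real.log Y / J (1 + ε)) := by ring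
      rw [e1, ← le_div_iff₀ (by positivity)] at hkk
      refine hkk.trans (le_of_eq ?_)
      show (k : ℝ) / (Real.log Y / J (1 + ε)) = J (1 + ε) * (k * (1 / Real.log Y))
      field_simp) n hn
    rw [dens_eq Y K j k hY1 hk, div_sub_one (by positivity), abs_div, abs_of_pos (show 0 < (k : ℝ) * (1 / Real.log Y) by positivity),
      div_le_iff₀ (by positivity)]
    exact h6
  · intro hK hK'
    have hK0 : 0 < K := by
      by_contra h
      have h0 : K = 0 := by omega
      rw [h0, Nat.cast_zero] at hK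
      have : 0 < γ * (Real.log V.card * Real.log Y) := by positivity
      linarith
    have hkap : kap (1 / Real.log Y) V.card K = K / (Real.log V.card * Real.log Y) := by
      unfold kap
      rw [mul_one_div, div_div, mul_comm (Real.log (Y : ℝ))]
    have hb : 0 < Real.log V.card * Real.log Y := by positivity
    have hk1 : γ ≤ kap (1 / Real.log Y) V.card K := by
      rw [hkap, le_div_iff₀ hb]
      exact hK
    have hk2 : kap (1 / Real.log Y) V.card K * J (1 + ε) ≤ 1 - γ := by
      rw [hkap, div_mul_eq_mul_div, div_le_iff₀ hb]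
      have e1 : (1 - γ) * (Real.log V.card * Real.log Y / J (1 + ε)) * J (1 + ε) =
          (1 - γ) * (Real.log V.card * Real.log Y) := by
        field_simp
      rw [← e1]
      exact mul_le_mul_of_nonneg_right hK' hJ.le
    have hk3 : kap (1 / Real.log Y) V.card K ≤ 1 / J (1 + ε) := by
      rw [le_div_iff₀ hJ]
      linarith
    have h5 := h2 (1 / Real.log Y) (Icc 1 Y) V (fun n a => (n + a).Prime) (by positivity)
      (h4 Y (hY₂.trans hVY) V hV hX3) hm K hk1 hk3
    rw [Nat.card_Icc, Nat.add_sub_cancel] at h5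
    refine le_trans ?_ h5
    apply Nat.cast_le.2
    apply card_le_card
    intro a ha
    unfold Seqs at ha
    rw [mem_filter] at ha ⊢
    refine ⟨ha.1, fun hP => ha.2 ?_⟩
    have h6 := (hP.1 (1 + ε) (by linarith)).2 hk2
    have h7 : (0 : ℝ) < NP (fun n a => (n + a).Prime) (1 / Real.log Y) V a (1 + ε) :=
      (Real.rpow_pos_of_pos (by exact_mod_cast (by omega : 0 < V.card)) _).trans_le h6
    have h8 : 0 < NP (fun n a => (n + a).Prime) (1 / Real.log Y) V a (1 + ε) := by exact_mod_cast h7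
    obtain ⟨n, hn⟩ := card_pos.1 h8
    rw [mem_filter] at hn
    refine ⟨n, hn.1, ?_⟩
    have hK0r : (0 : ℝ) < K := by exact_mod_cast hK0
    rw [dens_eq Y K 0 K hY1 hK0, whit_full, le_div_iff₀ (by positivity)]
    exact hn.2

end Pool.Agent.Results.MP_293bbf_nt.UniformOverWindows
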